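import Pool.Agent.helper62.RP.Top

set_option autoImplicit false

/-!
# MP_07c750_an: quantum unique ergodicity for covers of closed hyperbolic surfaces

`M = Γ \ ℍ` is a closed hyperbolic surface.

(1) If `M` has genus `g ≥ 2`, i.e. `Γ` is isomorphic to the group of the closed orientable surface of
genus `g`, there are connected covers of `M` of every degree, strongly convergent on the
vectors of sum zero, and `b_n → ∞` such that all new eigenfunctions with eigenvalues in `[0, b_n]`
are asymptotically equidistributed over `M`.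

(2) The same holds for all sequences of covers which converge strongly on the vectors of sum zero,

(3) and for the eigensections of the flat bundles of unitary representations of `Γ` which converge
strongly to the regular representation.
-/

open scoped MatrixGroups UpperHalfPlane
open UpperHalfPlane Filter

namespace Pool.Agent.Results.MP_07c750_an.StrongConvergenceQUE

open Pool.Agent.QU Pool.Agent.RP

theorem result (Γ : Subgroup SL(2, ℝ)) (hΓ : SurfaceGroup Γ) :
    (∀ g : ℕ, 2 ≤ g → Nonempty (Γ ≃* SurfGrp g) →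
      ∃ σ : ∀ n : ℕ, Γ →* Equiv.Perm (Fin n), (∀ n i j, ∃ γ, σ n γ i = j) ∧
        StrongLimPerm (fun n => n) σ ∧ NewQUE Γ (fun n => n) σ) ∧
    (∀ (N : ℕ → ℕ) (σ : ∀ n, Γ →* Equiv.Perm (Fin (N n))), StrongLimPerm N σ → NewQUE Γ N σ) ∧
    ∀ (V : ℕ → Type) [∀ n, NormedAddCommGroup (V n)] [∀ n, InnerProductSpace ℂ (V n)]
      [∀ n, CompleteSpace (V n)] (ρ : ∀ n, Γ →* (V n ≃ₗᵢ[ℂ] V n)), StrongLim V ρ →
      ∃ b : ℕ → ℝ, Tendsto b atTop atTop ∧ ∀ h : ℍ → ℝ, IsTest Γ h → ∀ ε : ℝ, 0 < ε →
        ∀ᶠ n in atTop, ∀ (μ : ℝ) (φ : ℍ → V n), 0 ≤ μ → μ ≤ b n → IsEigensection (ρ n) μ φ →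
          Equidist Γ h (fun z => ‖φ z‖ ^ 2) ε :=
  TOP_all Γ hΓ

end Pool.Agent.Results.MP_07c750_an.StrongConvergenceQUE
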